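import Pool.Agent.helper79.SX.Spec

/-! sx:VIN (MP_5628fe_nt) -/

set_option autoImplicit false

open Finset ArithmeticFunction

namespace Pool.Agent.SX

theorem VIN_exp (x : ℝ) (h0 : 0 ≤ x) (h1 : x ≤ 1 / 2) : Real.exp (-(x + 2 * x ^ 2)) ≤ 1 - x := by
  have hpos : 0 < 1 - x := by linarith
  rw [← Real.le_log_iff_exp_le hpos]
  refine le_trans ?_ (Real.one_sub_inv_le_log_of_pos hpos)
  have h2 : (1 - x)⁻¹ ≤ 1 + x + 2 * x ^ 2 := by
    rw [inv_le_iff_one_le_mul₀ hpos]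
    nlinarith [mul_nonneg h0 h0, mul_nonneg (mul_nonneg h0 h0) (sub_nonneg.2 h1)]
  linarith

theorem VIN_sq (F : Finset ℕ) (h : ∀ p ∈ F, 100000 < p) :
    ∑ p ∈ F, (((p : ℝ)) ^ 2)⁻¹ ≤ 1 / 100000 := by
  set n : ℕ := F.sup id + 100000 with hn
  have hsub : F ⊆ Ioc 100000 n := by
    intro p hp
    rw [Finset.mem_Ioc]
    refine ⟨h p hp, ?_⟩
    have : p ≤ F.sup id := Finset.le_sup (f := id) hp
    omega
  have h1 : ∑ p ∈ F, (((p : ℝ)) ^ 2)⁻¹ ≤ ∑ p ∈ Ioc 100000 n, (((p : ℝ)) ^ 2)⁻¹ :=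
    Finset.sum_le_sum_of_subset_of_nonneg hsub fun _ _ _ => by positivity
  have h2 : ∑ p ∈ Ioc 100000 n, (((p : ℝ)) ^ 2)⁻¹ ≤ ((100000 : ℕ) : ℝ)⁻¹ - (n : ℝ)⁻¹ :=
    sum_Ioc_inv_sq_le_sub (by norm_num) (by omega)
  have h3 : (0 : ℝ) ≤ (n : ℝ)⁻¹ := by positivity
  have h4 : ((100000 : ℕ) : ℝ)⁻¹ = 1 / 100000 := by norm_num
  linarith

theorem VIN (hSAD : SAD_stmt) (hSIG : SIG_stmt) (hLPM : LPM_stmt) : VIN_stmt := by
  intro h291 h hh
  obtain ⟨-, hBl, hV, -, hpos, -⟩ := hSAD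
  have hsig := hSIG 1 (1090 / 1000) (by norm_num) (by norm_num) hLPM 7680 h (by norm_num) hh
  have hhR : (7680 : ℝ) ≤ h := by exact_mod_cast hh
  have hlarge : ∀ p ∈ Bl 7680 h, 100000 < p := by
    intro p hp
    obtain ⟨-, -, h1, -⟩ := (hBl 7680 h p).1 hp
    by_contra hle
    push Not at hle
    have h2 : p ^ 10 ≤ 100000 ^ 10 := Nat.pow_le_pow_left hle 10
    have h3 : (100000 : ℕ) ^ 10 < 2 ^ 170 := by norm_num
    have h4 : (2 : ℕ) ^ 170 ≤ 2 ^ 7680 := Nat.pow_le_pow_right (by norm_num) (by norm_num)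
    omega
  -- lower bound of the product over the block
  have hprod : Real.exp (-(sig 7680 h + 8 / 100000)) ≤ V (Bl 7680 h) := by
    have h1 : Real.exp (-∑ p ∈ Bl 7680 h, ((2 / p : ℝ) + 2 * (2 / p : ℝ) ^ 2)) ≤ V (Bl 7680 h) := by
      rw [← Finset.sum_neg_distrib, Real.exp_sum]
      unfold V
      refine Finset.prod_le_prod (fun p _ => (Real.exp_pos _).le) fun p hp => ?_
      have hp1 := hlarge p hp
      have hpR : (100000 : ℝ) < p := by exact_mod_cast hp1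
      apply VIN_exp
      · positivity
      · rw [div_le_iff₀ (by linarith)]
        linarith
    refine le_trans (Real.exp_le_exp.2 ?_) h1
    apply neg_le_neg
    rw [Finset.sum_add_distrib]
    have h2 : ∑ p ∈ Bl 7680 h, 2 * (2 / p : ℝ) ^ 2 = 8 * ∑ p ∈ Bl 7680 h, (((p : ℝ)) ^ 2)⁻¹ := by
      rw [Finset.mul_sum]
      refine Finset.sum_congr rfl fun p _ => ?_
      rw [div_pow]
      ring
    have h3 := VIN_sq (Bl 7680 h) hlarge
    have h4 : ∑ p ∈ Bl 7680 h, (2 / p : ℝ) = sig 7680 h := rfl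
    rw [h2, h4]
    linarith
  rw [hV 7680 h hh]
  have hV0 : 0 < V (Pr 7680) := (hpos 7680 0).1
  have hexp : Real.exp (-(2 * Real.log ((h : ℝ) / 7680) + 42 / 10000)) ≤ V (Bl 7680 h) := by
    refine le_trans (Real.exp_le_exp.2 ?_) hprod
    apply neg_le_neg
    have h5 : ((7680 : ℕ) : ℝ) = 7680 := by norm_num
    rw [h5] at hsig
    have h6 : 2 * (1 * Real.log ((h : ℝ) / 7680) + 1090 / 1000 * (14.4269505 / 7680)) ≤
        2 * Real.log ((h : ℝ) / 7680) + 411 / 100000 := by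
      norm_num
      linarith
    linarith
  have hfin : Real.exp (-(2 * Real.log ((h : ℝ) / 7680) + 42 / 10000)) =
      (7680 / (h : ℝ)) ^ 2 * Real.exp (-(42 / 10000)) := by
    rw [neg_add, Real.exp_add]
    congr 1
    have h7 : (0 : ℝ) < h / 7680 := by positivity
    rw [Real.exp_neg, mul_comm, Real.exp_mul, Real.exp_log h7]
    rw [show (2 : ℝ) = ((2 : ℕ) : ℝ) by norm_num, Real.rpow_natCast]
    field_simp
  rw [hfin] at hexp
  have h8 : 1 - 42 / 10000 ≤ Real.exp (-(42 / 10000)) := by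
    have := Real.add_one_le_exp (-(42 / 10000 : ℝ))
    linarith
  have hh0 : (0 : ℝ) < h := by linarith
  have h9 : V (Pr 7680) * ((7680 / (h : ℝ)) ^ 2 * Real.exp (-(42 / 10000))) * (h : ℝ) ^ 2 ≤
      V (Pr 7680) * V (Bl 7680 h) * (h : ℝ) ^ 2 := by
    apply mul_le_mul_of_nonneg_right _ (by positivity)
    exact mul_le_mul_of_nonneg_left hexp hV0.le
  have h10 : V (Pr 7680) * ((7680 / (h : ℝ)) ^ 2 * Real.exp (-(42 / 10000))) * (h : ℝ) ^ 2 =
      V (Pr 7680) * 7680 ^ 2 * Real.exp (-(42 / 10000)) := by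
    field_simp
  have h11 : 291 * Real.exp (-(42 / 10000)) ≤
      V (Pr 7680) * 7680 ^ 2 * Real.exp (-(42 / 10000)) :=
    mul_le_mul_of_nonneg_right h291 (Real.exp_pos _).le
  linarith

end Pool.Agent.SX
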